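import Pool.Agent.TH697.Form.Defs

set_option autoImplicit false

/-! # Boolean products `u_iᵀ M v_i` -/

namespace Pool.Agent.TH697.Form.OuMv

open Finset Pool.Agent.TH697.Form

/-- The items of the input: the Boolean `n × n` matrix is item `none`, and the `i`-th pair of
vectors is item `some i`. -/
abbrev Item (n m : ℕ) : Option (Fin m) → Type
  | none => Fin n → Fin n → Bool
  | some _ => (Fin n → Bool) × (Fin n → Bool)

/-- Is `u_iᵀ M v_i = 1` for some `i` (over the Boolean semiring)? -/
def ouMv (n m : ℕ) (x : ∀ i, Item n m i) : Bool :=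
  decide (∃ (i : Fin m) (j k : Fin n),
    (x (some i)).1 j = true ∧ (x none) j k = true ∧ (x (some i)).2 k = true)

end Pool.Agent.TH697.Form.OuMv
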