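import Pool.Agent.TH697.Form.Build
import Pool.Agent.TH697.Form.OuMvDefs

set_option autoImplicit false

/-! # Formulas for the Boolean products `u_iᵀ M v_i` -/

namespace Pool.Agent.TH697.Form.OuMv

open Finset Pool.Agent.TH697.Form

variable {n m : ℕ}

/-- the matrix `z` and zero vectors -/
def enc (z : Fin n × Fin n → Bool) : ∀ i, Item n m i
  | none => fun j k => z (j, k)
  | some _ => (fun _ => false, fun _ => false)

/-- a pair of unit vectors -/
def ask (t : Fin n × Fin n) : (Fin n → Bool) × (Fin n → Bool) :=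
  (fun a => decide (a = t.1), fun a => decide (a = t.2))

theorem ouMv_enc (i : Fin m) (t : Fin n × Fin n) (z : Fin n × Fin n → Bool) :
    ouMv n m (Function.update (enc z) (some i) (ask t)) = z t := by
  unfold ouMv
  have h0 : Function.update (enc z : ∀ i, Item n m i) (some i) (ask t) none =
      fun j k => z (j, k) := by
    rw [Function.update_of_ne (by simp)]
    rfl
  rw [Bool.eq_iff_iff, decide_eq_true_iff]
  constructor
  · rintro ⟨i', j, k, h1, h2, h3⟩
    by_cases hi : i' = i
    · subst hi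
      rw [Function.update_self] at h1 h3
      simp only [ask, decide_eq_true_eq] at h1 h3
      rw [h0] at h2
      simp only at h2
      rw [h1, h3] at h2
      exact h2
    · rw [Function.update_of_ne (by simpa using hi)] at h1
      simp [enc] at h1
  · intro h
    refine ⟨i, t.1, t.2, ?_, ?_, ?_⟩
    · rw [Function.update_self]; simp [ask]
    · rw [h0]; exact h
    · rw [Function.update_self]; simp [ask]

theorem lower (hn : 5 ≤ n) {Ω : Type} [Fintype Ω] (μ : Ω → ℝ) (hμ : IsProb μ)
    (F : Ω → Fml (Option (Fin m)) (Item n m))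
    (hF : Computes μ F (fun _ => True) (ouMv n m)) :
    (m : ℝ) * n ^ 2 ≤ 100 * expSize μ F := by
  classical
  have h1 : ∀ i : Fin m, (49 / 600 : ℝ) * (n : ℝ) ^ 2 ≤
      4 * (∑ ω, μ ω * ((F ω).reads (some i) : ℝ)) + 1 := by
    intro i
    have h := reads_lower μ hμ F (fun _ => True) (ouMv n m) hF (some i) (fun _ => 0)
      (fun t _ => ask t) (fun _ _ _ _ => rfl) enc (fun _ _ => trivial)
      (fun t z => ouMv_enc i t z)
    have e : ((Fintype.card (Fin n × Fin n) : ℕ) : ℝ) = (n : ℝ) ^ 2 := by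
      simp; ring
    rw [e] at h
    exact h
  have h2 := size_lower μ hμ F ((univ : Finset (Fin m)).map Function.Embedding.some)
    ((49 / 600 : ℝ) * (n : ℝ) ^ 2) (by
      intro i hi
      rw [mem_map] at hi
      obtain ⟨i', -, rfl⟩ := hi
      exact h1 i')
  rw [card_map, card_univ, Fintype.card_fin] at h2
  have h3 : (5 : ℝ) ≤ n := by exact_mod_cast hn
  have h4 : (0 : ℝ) ≤ m := Nat.cast_nonneg m
  have h5 : (n : ℝ) ^ 2 / 25 ≤ (49 / 600 : ℝ) * (n : ℝ) ^ 2 - 1 := by nlinarith
  have h6 := mul_le_mul_of_nonneg_left h5 h4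
  linarith

theorem upper (hn : 1 ≤ n) (hm : 1 ≤ m) :
    ∃ G : Fml (Option (Fin m)) (Item n m), (∀ x, G.eval x = ouMv n m x) ∧
      G.size = 3 * m * n ^ 2 := by
  classical
  have : NeZero n := ⟨by omega⟩
  have : NeZero m := ⟨by omega⟩
  obtain ⟨G, h1, h2⟩ := exists_or (ι := Option (Fin m)) (D := Item n m)
    (univ : Finset (Fin m × Fin n × Fin n)) ⟨(0, 0, 0), mem_univ _⟩
    (fun p => .gate (fun a b => a && b) (.leaf (some p.1) (fun d => d.1 p.2.1))
      (.gate (fun a b => a && b) (.leaf none (fun d => d p.2.1 p.2.2))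
        (.leaf (some p.1) (fun d => d.2 p.2.2))))
  refine ⟨G, fun x => ?_, ?_⟩
  · unfold ouMv
    rw [Bool.eq_iff_iff, decide_eq_true_iff, h1]
    constructor
    · rintro ⟨⟨i, j, k⟩, -, h⟩
      simp only [Fml.eval, Bool.and_eq_true] at h
      exact ⟨i, j, k, h.1, h.2.1, h.2.2⟩
    · rintro ⟨i, j, k, h⟩
      refine ⟨(i, j, k), mem_univ _, ?_⟩
      simp only [Fml.eval, Bool.and_eq_true]
      exact h
  · rw [h2]
    simp only [Fml.size, sum_const, card_univ, Fintype.card_prod, Fintype.card_fin, smul_eq_mul]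
    ring

end Pool.Agent.TH697.Form.OuMv
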