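import Pool.Agent.TH697.Form.Defs

set_option autoImplicit false

/-! # Orthogonal vectors -/

namespace Pool.Agent.TH697.Form.OV

open Finset Pool.Agent.TH697.Form

/-- The items of the input: the whole list `B` of `n` vectors is item `none`, and the `i`-th vector
of the list `A` is item `some i`. -/
abbrev Item (n d : ℕ) : Option (Fin n) → Type
  | none => Fin n → Fin d → Bool
  | some _ => Fin d → Bool

/-- The vectors of `A` are distinct, and the vectors of `B` are distinct. -/
def Distinct (n d : ℕ) (x : ∀ i, Item n d i) : Prop :=
  Function.Injective (fun i => x (some i)) ∧ Function.Injective (x none)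

/-- Is a vector of `A` orthogonal to a vector of `B`? -/
def ov (n d : ℕ) (x : ∀ i, Item n d i) : Bool :=
  decide (∃ i j, ∀ c, ¬ (x (some i) c = true ∧ x none j c = true))

end Pool.Agent.TH697.Form.OV
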