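import Pool.Agent.TH697.Form.Build
import Pool.Agent.TH697.Form.OVDefs

set_option autoImplicit false

/-! # Formulas for orthogonal vectors -/

namespace Pool.Agent.TH697.Form.OV

open Finset Pool.Agent.TH697.Form

variable {n d ℓ : ℕ}

/-- a vector with flag `f`, address bits `a` (complemented if `e` is false) and data `s` -/
def vec (ℓ : ℕ) (f : Bool) (a : ℕ) (e : Bool) (s : ℕ → Bool) (c : Fin d) : Bool :=
  if c.val = 0 then f
  else if c.val ≤ 2 * ℓ then
    ((a.testBit ((c.val - 1) / 2) == decide ((c.val - 1) % 2 = 1)) == e)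
  else s (c.val - 1 - 2 * ℓ)

theorem vec_zero (h : 0 < d) (f : Bool) (a : ℕ) (e : Bool) (s : ℕ → Bool) :
    vec ℓ f a e s (⟨0, h⟩ : Fin d) = f := by
  simp [vec]

theorem vec_addr (r : ℕ) (hr : r < ℓ) (x : Bool) (f : Bool) (a : ℕ) (e : Bool)
    (s : ℕ → Bool) (hlt : 1 + 2 * r + x.toNat < d) :
    vec ℓ f a e s (⟨1 + 2 * r + x.toNat, hlt⟩ : Fin d) = ((a.testBit r == x) == e) := by
  have h2 : x.toNat ≤ 1 := by cases x <;> simp
  simp only [vec]
  rw [if_neg (by omega), if_pos (by omega)]
  have h3 : (1 + 2 * r + x.toNat - 1) / 2 = r := by omega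
  have h4 : (1 + 2 * r + x.toNat - 1) % 2 = x.toNat := by omega
  rw [h3, h4]
  cases x <;> simp

theorem vec_data (t : ℕ) (ht : 1 + 2 * ℓ + t < d) (f : Bool) (a : ℕ) (e : Bool)
    (s : ℕ → Bool) : vec ℓ f a e s (⟨1 + 2 * ℓ + t, ht⟩ : Fin d) = s t := by
  simp only [vec]
  rw [if_neg (by omega), if_neg (by omega)]
  congr 1
  omega

/-- different addresses -/
theorem exists_bit {a b : ℕ} (ha : a < 2 ^ ℓ) (hb : b < 2 ^ ℓ) (h : a ≠ b) :
    ∃ r < ℓ, a.testBit r ≠ b.testBit r := by
  by_contra hcon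
  push Not at hcon
  apply h
  apply Nat.eq_of_testBit_eq
  intro r
  by_cases hr : r < ℓ
  · exact hcon r hr
  · rw [Nat.testBit_lt_two_pow (lt_of_lt_of_le ha (Nat.pow_le_pow_right (by norm_num) (by omega))),
      Nat.testBit_lt_two_pow (lt_of_lt_of_le hb (Nat.pow_le_pow_right (by norm_num) (by omega)))]

/-- the vectors which encode the string `z` -/
def enc (ℓ : ℕ) (z : Fin n × Fin (d - 1 - 2 * ℓ) → Bool) : ∀ i, Item n d i
  | none => fun j => vec ℓ true j.val true
      (fun s => if h : s < d - 1 - 2 * ℓ then !z (j, ⟨s, h⟩) else false)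
  | some i => vec ℓ true i.val true (fun _ => false)

/-- the vector which asks for a bit -/
def ask (t : Fin n × Fin (d - 1 - 2 * ℓ)) : Fin d → Bool :=
  vec ℓ false t.1.val false (fun s => decide (s = t.2.val))

variable (i : Fin n) (t : Fin n × Fin (d - 1 - 2 * ℓ)) (z : Fin n × Fin (d - 1 - 2 * ℓ) → Bool)

theorem enc_none : Function.update (enc ℓ z : ∀ i, Item n d i) (some i) (ask t) none =
      fun j => vec ℓ true j.val true
      (fun s => if h : s < d - 1 - 2 * ℓ then !z (j, ⟨s, h⟩) else false) := by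
  rw [Function.update_of_ne (by simp)]
  rfl

theorem distinct_enc (hn : n ≤ 2 ^ ℓ) (hd : 4 * ℓ + 2 ≤ d) :
    Distinct n d (Function.update (enc ℓ z) (some i) (ask t)) := by
  -- vectors with different addresses are different
  have key : ∀ (f : Bool) (a b : ℕ) (s s' : ℕ → Bool), a < 2 ^ ℓ → b < 2 ^ ℓ →
      (vec ℓ f a true s : Fin d → Bool) = vec ℓ f b true s' → a = b := by
    intro f a b s s' ha hb h
    by_contra hne
    obtain ⟨r, hr, h1⟩ := exists_bit ha hb hne
    have h2 := congrFun h ⟨1 + 2 * r + true.toNat, by simp; omega⟩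
    rw [vec_addr r hr true, vec_addr r hr true] at h2
    apply h1
    simpa using h2
  refine ⟨fun i1 i2 h => ?_, fun j1 j2 h => ?_⟩
  · simp only at h
    have flag : ∀ i', i' ≠ i → Function.update (enc ℓ z : ∀ i, Item n d i) (some i) (ask t)
        (some i') = vec ℓ true i'.val true (fun _ => false) := by
      intro i' hi'
      rw [Function.update_of_ne (by simpa using hi')]
      rfl
    by_cases h1 : i1 = i <;> by_cases h2 : i2 = i
    · rw [h1, h2]
    · exfalso
      subst h1
      rw [Function.update_self, flag i2 h2] at h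
      have h3 := congrFun h (⟨0, by omega⟩ : Fin d)
      rw [ask, vec_zero, vec_zero] at h3
      simp at h3
    · exfalso
      subst h2
      rw [Function.update_self, flag i1 h1] at h
      have h3 := congrFun h (⟨0, by omega⟩ : Fin d)
      rw [ask, vec_zero, vec_zero] at h3
      simp at h3
    · rw [flag i1 h1, flag i2 h2] at h
      exact Fin.ext (key _ _ _ _ _ (lt_of_lt_of_le i1.2 hn) (lt_of_lt_of_le i2.2 hn) h)
  · rw [enc_none] at h
    simp only at h
    exact Fin.ext (key _ _ _ _ _ (lt_of_lt_of_le j1.2 hn) (lt_of_lt_of_le j2.2 hn) h)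

theorem ov_enc (hn : n ≤ 2 ^ ℓ) (hd : 4 * ℓ + 2 ≤ d) :
    ov n d (Function.update (enc ℓ z) (some i) (ask t)) = z t := by
  unfold ov
  rw [Bool.eq_iff_iff, decide_eq_true_iff, enc_none]
  beta_reduce
  have ht2 := t.2.2
  constructor
  · rintro ⟨i', j, h⟩
    by_cases hi : i' = i
    · subst hi
      rw [Function.update_self] at h
      by_cases hj : j = t.1
      · subst hj
        have h1 := h ⟨1 + 2 * ℓ + t.2.val, by omega⟩
        rw [ask, vec_data, vec_data, dif_pos ht2] at h1
        simp only [decide_true, true_and, Bool.not_eq_true'] at h1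
        cases h2 : z t with
        | true => rfl
        | false => exact absurd h2 h1
      · exfalso
        obtain ⟨r, hr, h1⟩ := exists_bit (lt_of_lt_of_le j.2 hn) (lt_of_lt_of_le t.1.2 hn)
          (fun h => hj (Fin.ext h))
        have hlt : 1 + 2 * r + (j.val.testBit r).toNat < d := by
          have : (j.val.testBit r).toNat ≤ 1 := by cases (j.val.testBit r) <;> simp
          omega
        have h2 := h ⟨1 + 2 * r + (j.val.testBit r).toNat, hlt⟩
        rw [ask, vec_addr r hr, vec_addr r hr] at h2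
        apply h2
        cases h3 : j.val.testBit r <;> cases h4 : t.1.val.testBit r <;> simp_all
    · exfalso
      rw [Function.update_of_ne (by simpa using hi)] at h
      have h1 := h ⟨0, by omega⟩
      simp only [enc] at h1
      rw [vec_zero, vec_zero] at h1
      simp at h1
  · intro hz
    refine ⟨i, t.1, fun c => ?_⟩
    rw [Function.update_self]
    simp only [ask, vec]
    by_cases c0 : c.val = 0
    · simp [c0]
    · rw [if_neg c0, if_neg c0]
      by_cases c1 : c.val ≤ 2 * ℓ
      · rw [if_pos c1, if_pos c1]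
        cases (t.1.val.testBit ((c.val - 1) / 2) == decide ((c.val - 1) % 2 = 1)) <;> simp
      · rw [if_neg c1, if_neg c1]
        rintro ⟨h1, h2⟩
        rw [decide_eq_true_eq] at h1
        have h3 : c.val - 1 - 2 * ℓ < d - 1 - 2 * ℓ := by omega
        rw [dif_pos h3] at h2
        have h4 : (⟨c.val - 1 - 2 * ℓ, h3⟩ : Fin (d - 1 - 2 * ℓ)) = t.2 := Fin.ext h1
        rw [h4] at h2
        have h5 : z (t.1, t.2) = true := hz
        rw [h5] at h2
        simp at h2

theorem lower (hn8 : 8 ≤ n) (hn : n ≤ 2 ^ ℓ) (hd : 4 * ℓ + 2 ≤ d) {Ω : Type} [Fintype Ω]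
    (μ : Ω → ℝ) (hμ : IsProb μ) (F : Ω → Fml (Option (Fin n)) (Item n d))
    (hF : Computes μ F (Distinct n d) (ov n d)) :
    (n : ℝ) ^ 2 * d ≤ 200 * expSize μ F := by
  classical
  have h1 : ∀ i : Fin n, (49 / 600 : ℝ) * ((n : ℝ) * (d / 2)) ≤
      4 * (∑ ω, μ ω * ((F ω).reads (some i) : ℝ)) + 1 := by
    intro i
    have h := reads_lower μ hμ F (Distinct n d) (ov n d) hF (some i)
      (fun _ => 0) (fun (t : Fin n × Fin (d - 1 - 2 * ℓ)) _ => ask t)
      (fun _ _ _ _ => rfl)
      (enc ℓ) (fun t z => distinct_enc i t z hn hd) (fun t z => ov_enc i t z hn hd)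
    refine le_trans ?_ h
    apply mul_le_mul_of_nonneg_left _ (by norm_num)
    have e : ((Fintype.card (Fin n × Fin (d - 1 - 2 * ℓ)) : ℕ) : ℝ) =
        (n : ℝ) * ((d - 1 - 2 * ℓ : ℕ) : ℝ) := by simp
    rw [e]
    apply mul_le_mul_of_nonneg_left _ (Nat.cast_nonneg n)
    have h2 : d ≤ 2 * (d - 1 - 2 * ℓ) := by omega
    have h3 : (d : ℝ) ≤ 2 * ((d - 1 - 2 * ℓ : ℕ) : ℝ) := by exact_mod_cast h2
    linarith
  have h2 := size_lower μ hμ F ((univ : Finset (Fin n)).map Function.Embedding.some)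
    ((49 / 600 : ℝ) * ((n : ℝ) * (d / 2))) (by
      intro i hi
      rw [mem_map] at hi
      obtain ⟨i', -, rfl⟩ := hi
      exact h1 i')
  rw [card_map, card_univ, Fintype.card_fin] at h2
  have hℓ : 3 ≤ ℓ := by
    by_contra hcon
    have : 2 ^ ℓ ≤ 2 ^ 2 := Nat.pow_le_pow_right (by norm_num) (by omega)
    omega
  have h3 : (8 : ℝ) ≤ n := by exact_mod_cast hn8
  have h4 : (14 : ℝ) ≤ d := by exact_mod_cast (by omega : 14 ≤ d)
  have h7 : (112 : ℝ) ≤ (n : ℝ) * d := by nlinarith
  have h5 : (n : ℝ) * d / 50 ≤ (49 / 600 : ℝ) * ((n : ℝ) * (d / 2)) - 1 := by linarith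
  have h6 := mul_le_mul_of_nonneg_left h5 (by linarith : (0 : ℝ) ≤ n)
  have h8 : (n : ℝ) * ((n : ℝ) * d / 50) = (n : ℝ) ^ 2 * d / 50 := by ring
  linarith

theorem upper (hn : 1 ≤ n) (hd : 1 ≤ d) :
    ∃ G : Fml (Option (Fin n)) (Item n d), (∀ x, G.eval x = ov n d x) ∧
      G.size = 2 * n ^ 2 * d := by
  classical
  have : NeZero n := ⟨by omega⟩
  have : NeZero d := ⟨by omega⟩
  choose H h3 h4 using fun p : Fin n × Fin n =>
    exists_and (ι := Option (Fin n)) (D := Item n d) (univ : Finset (Fin d)) ⟨0, mem_univ _⟩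
      (fun c => .gate (fun a b => !(a && b)) (.leaf (some p.1) (fun v => v c))
        (.leaf none (fun v => v p.2 c)))
  obtain ⟨G, h1, h2⟩ := exists_or (univ : Finset (Fin n × Fin n)) ⟨(0, 0), mem_univ _⟩ H
  refine ⟨G, fun x => ?_, ?_⟩
  · unfold ov
    rw [Bool.eq_iff_iff, decide_eq_true_iff, h1]
    constructor
    · rintro ⟨⟨i, j⟩, -, h⟩
      rw [h3] at h
      refine ⟨i, j, fun c hc => ?_⟩
      have := h c (mem_univ _)
      simp only [Fml.eval, Bool.not_eq_true', Bool.and_eq_false_iff] at this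
      rcases this with h | h
      · rw [hc.1] at h; exact Bool.noConfusion h
      · rw [hc.2] at h; exact Bool.noConfusion h
    · rintro ⟨i, j, h⟩
      refine ⟨(i, j), mem_univ _, ?_⟩
      rw [h3]
      intro c _
      have := h c
      simp only [Fml.eval, Bool.not_eq_true', Bool.and_eq_false_iff]
      cases h5 : x (some i) c <;> cases h6 : x none j c <;> simp_all
  · rw [h2]
    simp only [h4, Fml.size, sum_const, card_univ, Fintype.card_prod, Fintype.card_fin,
      smul_eq_mul]
    ring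

end Pool.Agent.TH697.Form.OV
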