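import Pool.Agent.TH697.Form.Defs

set_option autoImplicit false

/-! # Exact triangles -/

namespace Pool.Agent.TH697.Form.ET

open Finset Pool.Agent.TH697.Form

/-- The items of the input: the weights `B k j` of the edges between the second and the third part
are item `none`; the weights of all the edges from the vertex `i` of the first part to the second
and to the third part are item `some i`. -/
abbrev Item (n : ℕ) : Option (Fin n) → Type
  | none => Fin n → Fin n → ℤ
  | some _ => (Fin n → ℤ) × (Fin n → ℤ)

/-- All weights are between `-W` and `W`. -/
def InRange (n W : ℕ) (x : ∀ i, Item n i) : Prop :=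
  (∀ k j, |x none k j| ≤ W) ∧ ∀ i k, |(x (some i)).1 k| ≤ W ∧ |(x (some i)).2 k| ≤ W

/-- Is there a triangle of weight zero? -/
def zeroTri (n : ℕ) (x : ∀ i, Item n i) : Bool :=
  decide (∃ i k j, (x (some i)).1 k + x none k j + (x (some i)).2 j = 0)

end Pool.Agent.TH697.Form.ET
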