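import Pool.Agent.TH697.Form.Build
import Pool.Agent.TH697.Form.ETDefs

set_option autoImplicit false

/-! # Formulas for exact triangles -/

namespace Pool.Agent.TH697.Form.ET

open Finset Pool.Agent.TH697.Form

/-! ## a coding of strings by arrays -/

section arr

variable {m : ℕ} {V : Type} [DecidableEq V]

/-- exchange the entry number `u` of the first half with the entry `y u` of the second half,
for one `u` after the other -/
def arr (y : Fin m → V) : ℕ → Equiv.Perm (Fin m ⊕ V)
  | 0 => 1
  | u + 1 => if h : u < m then arr y u * Equiv.swap (.inl ⟨u, h⟩) (.inr (y ⟨u, h⟩)) else arr y u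

/-- the entry which comes to the place `u` -/
def slot (y : Fin m → V) (u : Fin m) : Fin m ⊕ V := arr y u (.inr (y u))

theorem arr_congr (y y' : Fin m → V) (v : ℕ) (h : ∀ u : Fin m, u.val < v → y u = y' u) :
    arr y v = arr y' v := by
  induction v with
  | zero => rfl
  | succ v ih =>
    simp only [arr]
    rw [ih (fun u hu => h u (by omega))]
    by_cases hv : v < m
    · rw [dif_pos hv, dif_pos hv, h ⟨v, hv⟩ (by simp)]
    · rw [dif_neg hv, dif_neg hv]

theorem arr_inl (y : Fin m → V) (u : Fin m) (v : ℕ) (hv : u.val < v) :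
    arr y v (.inl u) = slot y u := by
  induction v with
  | zero => omega
  | succ v ih =>
    simp only [arr]
    by_cases h : v < m
    · rw [dif_pos h, Equiv.Perm.mul_apply]
      by_cases huv : u.val = v
      · have e : u = ⟨v, h⟩ := Fin.ext huv
        subst huv
        rw [Equiv.swap_apply_left]
        rfl
      · rw [Equiv.swap_apply_of_ne_of_ne]
        · exact ih (by omega)
        · intro h2
          simp only [Sum.inl.injEq] at h2
          exact huv (congrArg Fin.val h2)
        · simp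
    · rw [dif_neg h]
      exact ih (by have := u.2; omega)

theorem slot_inj (y : Fin m → V) : Function.Injective (slot y) := by
  intro u u' h
  rw [← arr_inl y u m u.2, ← arr_inl y u' m u'.2] at h
  have := (arr y m).injective h
  simpa using this

end arr

/-! ## the graphs -/

section

variable {n b : ℕ} (e : (Fin (2 ^ b) ⊕ (Fin b → Bool)) ↪ Fin n)

/-- the string is a family of bits -/
abbrev Str (n b : ℕ) : Type := Fin n × Fin (2 ^ b) × Fin b

/-- the part of the string which belongs to `k` -/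
def row (z : Str n b → Bool) (k : Fin n) : Fin (2 ^ b) → (Fin b → Bool) := fun u s => z (k, u, s)

/-- different numbers -/
def lab (k : Fin n) (u : Fin (2 ^ b)) : ℤ := (k.val * 2 ^ b + u.val + 1 : ℕ)

theorem lab_inj (k k' : Fin n) (u u' : Fin (2 ^ b)) (h : lab k u = lab k' u') :
    k = k' ∧ u = u' := by
  unfold lab at h
  have h1 : k.val * 2 ^ b + u.val = k'.val * 2 ^ b + u'.val := by
    have := Int.ofNat_inj.1 h
    omega
  have h2 : (k.val * 2 ^ b + u.val) / 2 ^ b = (k'.val * 2 ^ b + u'.val) / 2 ^ b := by rw [h1]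
  have h3 : 0 < 2 ^ b := by positivity
  rw [mul_comm k.val, mul_comm k'.val, Nat.mul_add_div h3, Nat.mul_add_div h3,
    Nat.div_eq_of_lt u.2, Nat.div_eq_of_lt u'.2] at h2
  have h4 : k = k' := Fin.ext (by omega)
  subst h4
  exact ⟨rfl, Fin.ext (by omega)⟩

theorem lab_pos (k : Fin n) (u : Fin (2 ^ b)) : 1 ≤ lab k u := by
  unfold lab
  have : 1 ≤ k.val * 2 ^ b + u.val + 1 := by omega
  exact_mod_cast this

theorem lab_le (k : Fin n) (u : Fin (2 ^ b)) (hb : 2 ^ (b + 1) ≤ n) : lab k u < n ^ 2 := by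
  unfold lab
  have h1 : k.val * 2 ^ b + u.val + 1 < n ^ 2 := by
    have h2 : (k.val + 1) * 2 ^ b ≤ n * 2 ^ b := Nat.mul_le_mul_right _ k.2
    have h3 := u.2
    have h4 : n * 2 ^ (b + 1) ≤ n * n := Nat.mul_le_mul_left _ hb
    have h5 : n * 2 ^ (b + 1) = 2 * (n * 2 ^ b) := by rw [pow_succ]; ring
    have h6 : 0 < n * 2 ^ b := Nat.mul_pos (Nat.lt_of_le_of_lt (Nat.zero_le _) k.2) (by positivity)
    rw [add_mul, one_mul] at h2
    rw [pow_two]
    omega
  exact_mod_cast h1

open Classical in
/-- the weights which encode the string `z` -/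
noncomputable def enc (z : Str n b → Bool) : ∀ i, Item n i
  | none => fun k j => if h : ∃ u, e (slot (row z k) u) = j then -lab k h.choose else n ^ 2
  | some _ => (fun _ => 0, fun _ => n ^ 2)

/-- the candidates for the next bit -/
def Cand (t : Str n b) (z : Str n b → Bool) (j : Fin n) : Prop :=
  ∃ w : Fin b → Bool, (∀ s, s < t.2.2 → w s = z (t.1, t.2.1, s)) ∧ w t.2.2 = true ∧
    e (arr (row z t.1) t.2.1 (.inr w)) = j

open Classical in
/-- the weights which ask for a bit -/
noncomputable def ask (t : Str n b) (z : Str n b → Bool) : (Fin n → ℤ) × (Fin n → ℤ) :=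
  (fun _ => 0, fun j => if Cand e t z j then lab t.1 t.2.1 else n ^ 2)

theorem ask_causal (t : Str n b) (z z' : Str n b → Bool)
    (h : ∀ s : Str n b, s.2.1.val * b + s.2.2.val < t.2.1.val * b + t.2.2.val → z s = z' s) :
    ask e t z = ask e t z' := by
  have h1 : arr (row z t.1) t.2.1 = arr (row z' t.1) t.2.1 := by
    apply arr_congr
    intro u hu
    funext s
    apply h
    have h2 := s.2
    have h3 : (u.val + 1) * b ≤ t.2.1.val * b := Nat.mul_le_mul_right _ hu
    rw [add_mul, one_mul] at h3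
    simp only
    omega
  have h2 : ∀ s, s < t.2.2 → z (t.1, t.2.1, s) = z' (t.1, t.2.1, s) := by
    intro s hs
    apply h
    rw [Fin.lt_def] at hs
    simp only
    omega
  have h3 : ∀ j, Cand e t z j = Cand e t z' j := by
    intro j
    unfold Cand
    rw [h1]
    apply propext
    constructor
    · rintro ⟨w, hw1, hw2⟩
      exact ⟨w, fun s hs => by rw [hw1 s hs, h2 s hs], hw2⟩
    · rintro ⟨w, hw1, hw2⟩
      exact ⟨w, fun s hs => by rw [hw1 s hs, h2 s hs], hw2⟩
  unfold ask
  refine Prod.ext rfl ?_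
  funext j
  dsimp only
  by_cases hc : Cand e t z j
  · rw [if_pos hc, if_pos ((h3 j) ▸ hc)]
  · rw [if_neg hc, if_neg (fun hc' => hc ((h3 j) ▸ hc'))]

variable (i : Fin n) (t : Str n b) (z : Str n b → Bool)

theorem enc_slot (k : Fin n) (u : Fin (2 ^ b)) :
    enc e z none k (e (slot (row z k) u)) = -lab k u := by
  have h : ∃ u', e (slot (row z k) u') = e (slot (row z k) u) := ⟨u, rfl⟩
  simp only [enc]
  rw [dif_pos h]
  have h2 := slot_inj _ (e.injective h.choose_spec)
  rw [h2]

theorem enc_cases (k j : Fin n) :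
    (∃ u, e (slot (row z k) u) = j ∧ enc e z none k j = -lab k u) ∨ enc e z none k j = n ^ 2 := by
  by_cases h : ∃ u, e (slot (row z k) u) = j
  · left
    obtain ⟨u, rfl⟩ := h
    exact ⟨u, rfl, enc_slot e z k u⟩
  · right
    simp only [enc]
    rw [dif_neg h]

theorem enc_none : Function.update (enc e z : ∀ i, Item n i) (some i) (ask e t z) none =
    enc e z none := by
  rw [Function.update_of_ne (by simp)]

theorem inRange_enc (hb : 2 ^ (b + 1) ≤ n) :
    InRange n (n ^ 2) (Function.update (enc e z) (some i) (ask e t z)) := by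
  have h0 : (0 : ℤ) ≤ (n : ℤ) ^ 2 := by positivity
  refine ⟨fun k j => ?_, fun i' k => ?_⟩
  · rw [enc_none]
    push_cast
    rcases enc_cases e z k j with ⟨u, -, h⟩ | h
    · rw [h, abs_neg, abs_of_pos (by linarith [lab_pos k u])]
      exact (lab_le k u hb).le
    · rw [h, abs_of_nonneg h0]
  · push_cast
    by_cases hi : i' = i
    · subst hi
      rw [Function.update_self]
      simp only [ask, abs_zero]
      refine ⟨h0, ?_⟩
      split_ifs
      · rw [abs_of_pos (by linarith [lab_pos t.1 t.2.1])]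
        exact (lab_le _ _ hb).le
      · rw [abs_of_nonneg h0]
    · rw [Function.update_of_ne (by simpa using hi)]
      simp only [enc, abs_zero]
      exact ⟨h0, by rw [abs_of_nonneg h0]⟩

theorem zeroTri_enc (hb : 2 ^ (b + 1) ≤ n) :
    zeroTri n (Function.update (enc e z) (some i) (ask e t z)) = z t := by
  unfold zeroTri
  rw [Bool.eq_iff_iff, decide_eq_true_iff, enc_none]
  have hn0 : (0 : ℤ) < (n : ℤ) ^ 2 := by
    have : 0 < n := lt_of_lt_of_le (by positivity) hb
    positivity
  constructor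
  · rintro ⟨i', k, j, h⟩
    have big : ∀ c : ℤ, c = n ^ 2 → 0 + enc e z none k j + c ≠ 0 := by
      intro c hc
      rcases enc_cases e z k j with ⟨u, -, h1⟩ | h1
      · have := lab_le k u hb
        rw [h1, hc]
        intro h2
        linarith
      · rw [h1, hc]
        intro h2
        linarith
    by_cases hi : i' = i
    · subst hi
      rw [Function.update_self] at h
      simp only [ask] at h
      by_cases hj : Cand e t z j
      · rw [if_pos hj] at h
        rcases enc_cases e z k j with ⟨u, h1, h2⟩ | h2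
        · rw [h2] at h
          obtain ⟨h3, h4⟩ := lab_inj k t.1 u t.2.1 (by linarith)
          obtain ⟨w, -, hw2, hw3⟩ := hj
          rw [← h1, h3, h4] at hw3
          have h5 := e.injective hw3
          unfold slot at h5
          have h6 := (arr (row z t.1) t.2.1).injective h5
          simp only [Sum.inr.injEq] at h6
          rw [h6] at hw2
          exact hw2
        · rw [h2] at h
          linarith [lab_pos t.1 t.2.1]
      · rw [if_neg hj] at h
        exact absurd h (big _ rfl)
    · rw [Function.update_of_ne (by simpa using hi)] at h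
      exact absurd h (big _ rfl)
  · intro h
    refine ⟨i, t.1, e (slot (row z t.1) t.2.1), ?_⟩
    rw [Function.update_self, enc_slot]
    have hc : Cand e t z (e (slot (row z t.1) t.2.1)) :=
      ⟨row z t.1 t.2.1, fun s _ => rfl, h, rfl⟩
    simp only [ask]
    rw [if_pos hc]
    ring

end

variable {n : ℕ}

theorem lower (hn : 8 ≤ n) {Ω : Type} [Fintype Ω] (μ : Ω → ℝ) (hμ : IsProb μ)
    (F : Ω → Fml (Option (Fin n)) (Item n))
    (hF : Computes μ F (InRange n (n ^ 2)) (zeroTri n)) :
    (n : ℝ) ^ 3 * Nat.log 2 n ≤ 800 * expSize μ F := by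
  classical
  obtain ⟨b, hb⟩ : ∃ b, Nat.log 2 n = b + 1 := by
    refine ⟨Nat.log 2 n - 1, ?_⟩
    have : 3 ≤ Nat.log 2 n := by
      have := Nat.log_mono_right (b := 2) hn
      rwa [show Nat.log 2 8 = 3 by decide] at this
    omega
  have hb2 : 2 ≤ b := by
    have := Nat.log_mono_right (b := 2) hn
    rw [show Nat.log 2 8 = 3 by decide] at this
    omega
  have hpow : 2 ^ (b + 1) ≤ n := by
    rw [← hb]
    exact Nat.pow_log_le_self 2 (by omega)
  have hpow2 : n < 2 ^ (b + 2) := by
    have := Nat.lt_pow_succ_log_self (b := 2) (by norm_num) n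
    rw [hb] at this
    exact this
  have he : Nonempty ((Fin (2 ^ b) ⊕ (Fin b → Bool)) ↪ Fin n) := by
    rw [Function.Embedding.nonempty_iff_card_le]
    simp only [Fintype.card_sum, Fintype.card_fin, Fintype.card_fun, Fintype.card_bool]
    rw [pow_succ] at hpow
    omega
  obtain ⟨e⟩ := he
  have h1 : ∀ i : Fin n, (49 / 600 : ℝ) * ((n : ℝ) * (n / 4) * b) ≤
      4 * (∑ ω, μ ω * ((F ω).reads (some i) : ℝ)) + 1 := by
    intro i
    have h := reads_lower μ hμ F (InRange n (n ^ 2)) (zeroTri n) hF (some i)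
      (fun t : Str n b => t.2.1.val * b + t.2.2.val) (fun t z => ask e t z)
      (fun t z z' h => ask_causal e t z z' h)
      (enc e) (fun t z => inRange_enc e i t z hpow) (fun t z => zeroTri_enc e i t z hpow)
    refine le_trans ?_ h
    apply mul_le_mul_of_nonneg_left _ (by norm_num)
    have e1 : ((Fintype.card (Str n b) : ℕ) : ℝ) = (n : ℝ) * 2 ^ b * b := by
      simp [Str]; ring
    rw [e1]
    have e2 : (n : ℝ) / 4 ≤ 2 ^ b := by
      have h3 : (n : ℝ) < 2 ^ (b + 2) := by exact_mod_cast hpow2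
      have h4 : (2 : ℝ) ^ (b + 2) = 4 * 2 ^ b := by rw [pow_add]; ring
      linarith
    gcongr
  have h2 := size_lower μ hμ F ((univ : Finset (Fin n)).map Function.Embedding.some)
    ((49 / 600 : ℝ) * ((n : ℝ) * (n / 4) * b)) (by
      intro i hi
      rw [mem_map] at hi
      obtain ⟨i', -, rfl⟩ := hi
      exact h1 i')
  rw [card_map, card_univ, Fintype.card_fin] at h2
  have h3 : (8 : ℝ) ≤ n := by exact_mod_cast hn
  have h4 : (2 : ℝ) ≤ b := by exact_mod_cast hb2
  have h9 : (64 : ℝ) ≤ (n : ℝ) ^ 2 := by nlinarith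
  have h7 : (128 : ℝ) ≤ (n : ℝ) ^ 2 * b := by nlinarith
  have h5 : (n : ℝ) ^ 2 * b / 100 ≤ (49 / 600 : ℝ) * ((n : ℝ) * (n / 4) * b) - 1 := by
    have : (n : ℝ) * (n / 4) * b = (n : ℝ) ^ 2 * b / 4 := by ring
    rw [this]
    linarith
  have h6 := mul_le_mul_of_nonneg_left h5 (by linarith : (0 : ℝ) ≤ n)
  have h8 : (n : ℝ) * ((n : ℝ) ^ 2 * b / 100) = (n : ℝ) ^ 3 * b / 100 := by ring
  rw [hb]
  push_cast
  have h10 : (n : ℝ) ^ 3 * ((b : ℝ) + 1) ≤ (n : ℝ) ^ 3 * (2 * b) :=
    mul_le_mul_of_nonneg_left (by linarith) (by positivity)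
  linarith

theorem upper (hn : 1 ≤ n) (W b : ℕ) (hW : 4 * W < 2 ^ b) :
    ∃ G : Fml (Option (Fin n)) (Item n),
      (∀ x, InRange n W x → G.eval x = zeroTri n x) ∧ G.size ≤ n ^ 3 * (2 * b + 1) := by
  classical
  have : NeZero n := ⟨by omega⟩
  have hlt : ∀ a : ℕ, a % 2 ^ b < 2 ^ b := fun a => Nat.mod_lt _ (by positivity)
  choose H h3 h4 using fun p : Fin n × Fin n × Fin n =>
    exists_eq' (ι := Option (Fin n)) (D := Item n) none (some p.1) b
      (fun d => (2 * W - d p.2.1 p.2.2).toNat % 2 ^ b)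
      (fun d => (2 * W + (d.1 p.2.1 + d.2 p.2.2)).toNat % 2 ^ b)
      (fun _ => hlt _) (fun _ => hlt _)
  obtain ⟨G, h1, h2⟩ := exists_or (univ : Finset (Fin n × Fin n × Fin n))
    ⟨(0, 0, 0), mem_univ _⟩ H
  refine ⟨G, fun x hx => ?_, ?_⟩
  · unfold zeroTri
    rw [Bool.eq_iff_iff, decide_eq_true_iff, h1]
    have key : ∀ i k j, ((2 * (W : ℤ) - x none k j).toNat % 2 ^ b =
        (2 * (W : ℤ) + ((x (some i)).1 k + (x (some i)).2 j)).toNat % 2 ^ b ↔
        (x (some i)).1 k + x none k j + (x (some i)).2 j = 0) := by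
      intro i k j
      have h5 := abs_le.1 (hx.1 k j)
      have h6 := abs_le.1 (hx.2 i k).1
      have h7 := abs_le.1 (hx.2 i j).2
      rw [Nat.mod_eq_of_lt (by omega), Nat.mod_eq_of_lt (by omega)]
      omega
    constructor
    · rintro ⟨⟨i, k, j⟩, -, h⟩
      rw [h3, key] at h
      exact ⟨i, k, j, h⟩
    · rintro ⟨i, k, j, h⟩
      refine ⟨(i, k, j), mem_univ _, ?_⟩
      rw [h3, key]
      exact h
  · rw [h2]
    calc ∑ a, (H a).size ≤ ∑ _a : Fin n × Fin n × Fin n, (2 * b + 1) :=
          sum_le_sum fun a _ => h4 a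
      _ = n ^ 3 * (2 * b + 1) := by
          simp only [sum_const, card_univ, Fintype.card_prod, Fintype.card_fin, smul_eq_mul]
          ring

end Pool.Agent.TH697.Form.ET
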