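import Pool.Agent.TH697.Form.Defs

set_option autoImplicit false

/-! # Negative triangles (shortcuts in layered graphs) -/

namespace Pool.Agent.TH697.Form.MinPlus

open Finset Pool.Agent.TH697.Form

/-- The items of the input: the weights `B k j` of the edges from the second layer to the third
layer are item `none`; the weights `A i k` and `C i j` of all the edges at the vertex `i` of the
first layer (to the second and to the third layer) are item `some i`. -/
abbrev Item (n : ℕ) : Option (Fin n) → Type
  | none => Fin n → Fin n → ℕ
  | some _ => (Fin n → ℕ) × (Fin n → ℕ)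

/-- All weights are between `1` and `W`. -/
def InRange (n W : ℕ) (x : ∀ i, Item n i) : Prop :=
  (∀ k j, 1 ≤ x none k j ∧ x none k j ≤ W) ∧
    ∀ i k, (1 ≤ (x (some i)).1 k ∧ (x (some i)).1 k ≤ W) ∧
      (1 ≤ (x (some i)).2 k ∧ (x (some i)).2 k ≤ W)

/-- Is some edge `i → j` longer than a path `i → k → j`? -/
def shortcut (n : ℕ) (x : ∀ i, Item n i) : Bool :=
  decide (∃ i k j, (x (some i)).1 k + x none k j < (x (some i)).2 j)

end Pool.Agent.TH697.Form.MinPlus
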