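import Pool.Agent.TH697.Form.Build
import Pool.Agent.TH697.Form.MinPlusDefs

set_option autoImplicit false

/-! # Formulas for negative triangles (shortcuts in layered graphs) -/

namespace Pool.Agent.TH697.Form.MinPlus

open Finset Pool.Agent.TH697.Form

variable {n b : ℕ}

/-- a number given by its bits (complemented) -/
def num (y : Fin b → Bool) : ℕ := Nat.ofBits (fun s => !y s)

theorem num_lt (y : Fin b → Bool) : num y < 2 ^ b := Nat.ofBits_lt_two_pow _

theorem num_bit (y : Fin b → Bool) (s : Fin b) : (num y).testBit s = !y s := by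
  unfold num
  rw [Nat.testBit_ofBits_lt _ _ s.2]

/-- the threshold for a bit -/
def thr (y : Fin b → Bool) (s : Fin b) : ℕ := num y / 2 ^ (s.val + 1) * 2 ^ (s.val + 1) + 2 ^ s.val

theorem thr_causal (y y' : Fin b → Bool) (s : Fin b) (h : ∀ s', s < s' → y s' = y' s') :
    thr y s = thr y' s := by
  unfold thr
  have : num y / 2 ^ (s.val + 1) = num y' / 2 ^ (s.val + 1) := by
    apply Nat.eq_of_testBit_eq
    intro i
    rw [Nat.testBit_div_two_pow, Nat.testBit_div_two_pow]
    by_cases hi : i + (s.val + 1) < b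
    · have h1 := num_bit y ⟨i + (s.val + 1), hi⟩
      have h2 := num_bit y' ⟨i + (s.val + 1), hi⟩
      simp only at h1 h2
      rw [h1, h2, h ⟨i + (s.val + 1), hi⟩ (by rw [Fin.lt_def]; simp only; omega)]
    · unfold num
      rw [Nat.testBit_ofBits_ge _ _ (by omega), Nat.testBit_ofBits_ge _ _ (by omega)]
  rw [this]

theorem thr_lt (y : Fin b → Bool) (s : Fin b) : thr y s < 2 ^ b := by
  unfold thr
  have h1 := num_lt y
  have h2 : (2 : ℕ) ^ b = 2 ^ (s.val + 1) * 2 ^ (b - (s.val + 1)) := by
    rw [← pow_add]; congr 1; omega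
  have h3 : num y / 2 ^ (s.val + 1) < 2 ^ (b - (s.val + 1)) := by
    apply Nat.div_lt_of_lt_mul
    rw [← h2]; exact h1
  have h4 : (num y / 2 ^ (s.val + 1) + 1) * 2 ^ (s.val + 1) ≤ 2 ^ b := by
    rw [h2, mul_comm]
    exact Nat.mul_le_mul_left _ h3
  have h5 : 0 < 2 ^ s.val := by positivity
  have h6 : (2 : ℕ) ^ (s.val + 1) = 2 * 2 ^ s.val := by rw [pow_succ]; ring
  rw [add_mul, one_mul] at h4
  omega

theorem num_lt_thr (y : Fin b → Bool) (s : Fin b) : num y < thr y s ↔ y s = true := by
  have h1 := num_bit y s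
  rw [Nat.testBit_eq_decide_div_mod_eq] at h1
  unfold thr
  obtain ⟨v, hv⟩ : ∃ v, v = num y := ⟨_, rfl⟩
  rw [← hv] at h1 ⊢
  have h6 : (2 : ℕ) ^ (s.val + 1) = 2 ^ s.val * 2 := by rw [pow_succ]
  have h5 : 0 < 2 ^ s.val := by positivity
  obtain ⟨p, hp⟩ : ∃ p, p = 2 ^ s.val := ⟨_, rfl⟩
  rw [h6, ← hp]
  rw [← hp] at h1 h5
  have h7 : v / (p * 2) = v / p / 2 := by rw [Nat.div_div_eq_div_mul]
  have h8 := Nat.div_add_mod v p
  have h9 := Nat.mod_lt v h5
  have h10 := Nat.div_add_mod (v / p) 2
  rw [h7]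
  obtain ⟨q, hq⟩ : ∃ q, q = v / p / 2 := ⟨_, rfl⟩
  rw [← hq] at h10 ⊢
  rcases Nat.mod_two_eq_zero_or_one (v / p) with h11 | h11
  · rw [h11] at h1 h10
    have h12 : y s = true := by
      cases h : y s <;> simp_all
    rw [h12]
    simp only [iff_true]
    rw [← h10] at h8
    have h13 : p * (2 * q + 0) = q * (p * 2) := by ring
    omega
  · rw [h11] at h1 h10
    have h12 : y s = false := by
      cases h : y s <;> simp_all
    rw [h12]
    simp only [Bool.false_eq_true, iff_false, not_lt]
    rw [← h10] at h8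
    have h13 : p * (2 * q + 1) = q * (p * 2) + p := by ring
    omega

/-- the weights which encode the string `z` -/
def enc (z : Fin n × Fin n × Fin b → Bool) : ∀ i, Item n i
  | none => fun k j => 1 + num (fun s => z (k, j, s))
  | some _ => (fun _ => 1, fun _ => 1)

/-- the weights which ask for a bit -/
def ask (t : Fin n × Fin n × Fin b) (z : Fin n × Fin n × Fin b → Bool) :
    (Fin n → ℕ) × (Fin n → ℕ) :=
  (fun k => if k = t.1 then 1 else 2 ^ b + 1,
   fun j => if j = t.2.1 then thr (fun s => z (t.1, t.2.1, s)) t.2.2 + 2 else 1)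

theorem enc_none (i : Fin n) (t : Fin n × Fin n × Fin b) (z : Fin n × Fin n × Fin b → Bool) :
    Function.update (enc z : ∀ i, Item n i) (some i) (ask t z) none =
      fun k j => 1 + num (fun s => z (k, j, s)) := by
  rw [Function.update_of_ne (by simp)]
  rfl

theorem inRange_enc (i : Fin n) (t : Fin n × Fin n × Fin b) (z : Fin n × Fin n × Fin b → Bool) :
    InRange n (2 ^ b + 1) (Function.update (enc z) (some i) (ask t z)) := by
  refine ⟨fun k j => ?_, fun i' k => ?_⟩
  · rw [enc_none]
    have := num_lt (fun s => z (k, j, s))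
    simp only
    omega
  · by_cases hi : i' = i
    · subst hi
      rw [Function.update_self]
      have := thr_lt (fun s => z (t.1, t.2.1, s)) t.2.2
      simp only [ask]
      refine ⟨?_, ?_⟩ <;> split_ifs <;> omega
    · rw [Function.update_of_ne (by simpa using hi)]
      simp [enc]

theorem shortcut_enc (i : Fin n) (t : Fin n × Fin n × Fin b)
    (z : Fin n × Fin n × Fin b → Bool) :
    shortcut n (Function.update (enc z) (some i) (ask t z)) = z t := by
  unfold shortcut
  rw [Bool.eq_iff_iff, decide_eq_true_iff, enc_none]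
  have hthr := num_lt_thr (fun s => z (t.1, t.2.1, s)) t.2.2
  have hlt := thr_lt (fun s => z (t.1, t.2.1, s)) t.2.2
  constructor
  · rintro ⟨i', k, j, h⟩
    by_cases hi : i' = i
    · subst hi
      rw [Function.update_self] at h
      simp only [ask] at h
      by_cases hj : j = t.2.1
      · by_cases hk : k = t.1
        · rw [if_pos hk, if_pos hj, hk, hj] at h
          exact hthr.1 (by omega)
        · rw [if_neg hk, if_pos hj] at h
          omega
      · rw [if_neg hj] at h
        omega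
    · rw [Function.update_of_ne (by simpa using hi)] at h
      simp only [enc] at h
      omega
  · intro h
    refine ⟨i, t.1, t.2.1, ?_⟩
    rw [Function.update_self]
    simp only [ask, if_true]
    have := hthr.2 h
    omega

theorem lower (hn : 5 ≤ n) (hb : 1 ≤ b) {Ω : Type} [Fintype Ω] (μ : Ω → ℝ) (hμ : IsProb μ)
    (F : Ω → Fml (Option (Fin n)) (Item n))
    (hF : Computes μ F (InRange n (2 ^ b + 1)) (shortcut n)) :
    (n : ℝ) ^ 3 * b ≤ 100 * expSize μ F := by
  classical
  have h1 : ∀ i : Fin n, (49 / 600 : ℝ) * ((n : ℝ) ^ 2 * b) ≤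
      4 * (∑ ω, μ ω * ((F ω).reads (some i) : ℝ)) + 1 := by
    intro i
    have h := reads_lower μ hμ F (InRange n (2 ^ b + 1)) (shortcut n) hF (some i)
      (fun t : Fin n × Fin n × Fin b => b - t.2.2.val) (fun t z => ask t z)
      (by
        intro t z z' hz
        simp only [ask]
        rw [thr_causal (fun s => z (t.1, t.2.1, s)) (fun s => z' (t.1, t.2.1, s)) t.2.2]
        intro s' hs'
        apply hz
        rw [Fin.lt_def] at hs'
        have := s'.2
        simp only
        omega)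
      enc (fun t z => inRange_enc i t z) (fun t z => shortcut_enc i t z)
    have e : ((Fintype.card (Fin n × Fin n × Fin b) : ℕ) : ℝ) = (n : ℝ) ^ 2 * b := by
      simp; ring
    rw [e] at h
    exact h
  have h2 := size_lower μ hμ F ((univ : Finset (Fin n)).map Function.Embedding.some)
    ((49 / 600 : ℝ) * ((n : ℝ) ^ 2 * b)) (by
      intro i hi
      rw [mem_map] at hi
      obtain ⟨i', -, rfl⟩ := hi
      exact h1 i')
  rw [card_map, card_univ, Fintype.card_fin] at h2
  have h3 : (5 : ℝ) ≤ n := by exact_mod_cast hn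
  have h4 : (1 : ℝ) ≤ b := by exact_mod_cast hb
  have h7 : (25 : ℝ) ≤ (n : ℝ) ^ 2 * b := by nlinarith
  have h5 : (n : ℝ) ^ 2 * b / 25 ≤ (49 / 600 : ℝ) * ((n : ℝ) ^ 2 * b) - 1 := by linarith
  have h6 := mul_le_mul_of_nonneg_left h5 (by linarith : (0 : ℝ) ≤ n)
  have h8 : (n : ℝ) * ((n : ℝ) ^ 2 * b / 25) = (n : ℝ) ^ 3 * b / 25 := by ring
  linarith

theorem upper (hn : 1 ≤ n) (b : ℕ) :
    ∃ G : Fml (Option (Fin n)) (Item n),
      (∀ x, InRange n (2 ^ b - 1) x → G.eval x = shortcut n x) ∧
      G.size ≤ n ^ 3 * (4 * b + 1) := by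
  classical
  have : NeZero n := ⟨by omega⟩
  have hlt : ∀ a : ℕ, a % 2 ^ b < 2 ^ b := fun a => Nat.mod_lt _ (by positivity)
  choose H h3 h4 using fun p : Fin n × Fin n × Fin n =>
    exists_lt (ι := Option (Fin n)) (D := Item n) none (some p.1) b
      (fun d => d p.2.1 p.2.2 % 2 ^ b) (fun d => (d.2 p.2.2 - d.1 p.2.1) % 2 ^ b)
      (fun _ => hlt _) (fun _ => hlt _)
  obtain ⟨G, h1, h2⟩ := exists_or (univ : Finset (Fin n × Fin n × Fin n))
    ⟨(0, 0, 0), mem_univ _⟩ H
  refine ⟨G, fun x hx => ?_, ?_⟩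
  · unfold shortcut
    rw [Bool.eq_iff_iff, decide_eq_true_iff, h1]
    have key : ∀ i k j, (x none k j % 2 ^ b < ((x (some i)).2 j - (x (some i)).1 k) % 2 ^ b ↔
        (x (some i)).1 k + x none k j < (x (some i)).2 j) := by
      intro i k j
      have h5 := hx.1 k j
      have h6 := hx.2 i j
      have h7 : 0 < 2 ^ b := by positivity
      rw [Nat.mod_eq_of_lt (show x none k j < 2 ^ b by omega),
        Nat.mod_eq_of_lt (show (x (some i)).2 j - (x (some i)).1 k < 2 ^ b by omega)]
      omega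
    constructor
    · rintro ⟨⟨i, k, j⟩, -, h⟩
      rw [h3, key] at h
      exact ⟨i, k, j, h⟩
    · rintro ⟨i, k, j, h⟩
      refine ⟨(i, k, j), mem_univ _, ?_⟩
      rw [h3, key]
      exact h
  · rw [h2]
    calc ∑ a, (H a).size ≤ ∑ _a : Fin n × Fin n × Fin n, (4 * b + 1) :=
          sum_le_sum fun a _ => h4 a
      _ = n ^ 3 * (4 * b + 1) := by
          simp only [sum_const, card_univ, Fintype.card_prod, Fintype.card_fin, smul_eq_mul]
          ring

end Pool.Agent.TH697.Form.MinPlus
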