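import Pool.Agent.TH697.Form.Defs

set_option autoImplicit false

/-! # 3SUM -/

namespace Pool.Agent.TH697.Form.ThreeSum

open Finset Pool.Agent.TH697.Form

/-- The items of the input: the list of the last `m'` numbers is item `none`, and the `i`-th of the
first `m` numbers is item `some i`. -/
abbrev Item (m m' : ℕ) : Option (Fin m) → Type
  | none => Fin m' → ℤ
  | some _ => ℤ

/-- All the numbers. -/
def nums {m m' : ℕ} (x : ∀ i, Item m m' i) : Fin m ⊕ Fin m' → ℤ
  | .inl i => x (some i)
  | .inr j => x none j

/-- The numbers are `m + m'` distinct integers of absolute value at most `(m + m') ^ 3`. -/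
def Valid (m m' : ℕ) (x : ∀ i, Item m m' i) : Prop :=
  Function.Injective (nums x) ∧ ∀ p, |nums x p| ≤ (m + m' : ℕ) ^ 3

/-- Is one of the numbers the sum of two others (three different ones)? -/
def threeSum (m m' : ℕ) (x : ∀ i, Item m m' i) : Bool :=
  decide (∃ p q r : Fin m ⊕ Fin m', p ≠ q ∧ p ≠ r ∧ q ≠ r ∧ nums x p + nums x q = nums x r)

end Pool.Agent.TH697.Form.ThreeSum
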