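import Pool.Agent.TH697.Form.Build
import Pool.Agent.TH697.Form.ThreeSumDefs

set_option autoImplicit false

/-! # Formulas for 3SUM -/

namespace Pool.Agent.TH697.Form.ThreeSum

open Finset Pool.Agent.TH697.Form

section

variable {m m' b : ℕ}

/-- the numbers of the string -/
def val (z : Fin (m' / 2) × Fin b → Bool) (t : Fin (m' / 2)) : ℕ := Nat.ofBits (fun s => z (t, s))

theorem val_lt (z : Fin (m' / 2) × Fin b → Bool) (t : Fin (m' / 2)) : val z t < 2 ^ b :=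
  Nat.ofBits_lt_two_pow _

theorem val_bit (z : Fin (m' / 2) × Fin b → Bool) (t : Fin (m' / 2)) (s : Fin b) :
    (val z t).testBit s = z (t, s) := by
  unfold val
  rw [Nat.testBit_ofBits_lt _ _ s.2]

/-- The numbers which encode the string `z`. -/
def enc (z : Fin (m' / 2) × Fin b → Bool) : ∀ i, Item m m' i
  | none => fun j =>
      if h : j.val < m' / 2 then
        4 * (16 * ((m + m' : ℕ) : ℤ) ^ 2) + (j.val * (4 * (m + m' : ℕ)) + val z ⟨j, h⟩)
      else if (j.val - m' / 2) / 2 ^ b < b ∧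
          ((j.val - m' / 2) % 2 ^ b).testBit ((j.val - m' / 2) / 2 ^ b) = true then
        3 * (16 * ((m + m' : ℕ) : ℤ) ^ 2) + (((j.val - m' / 2) % 2 ^ b : ℕ) -
          2 * (((j.val - m' / 2) / 2 ^ b : ℕ) * 2 ^ b))
      else 10 * (16 * ((m + m' : ℕ) : ℤ) ^ 2) + (m + j.val : ℕ)
  | some i => 10 * (16 * ((m + m' : ℕ) : ℤ) ^ 2) + (i.val : ℤ)

/-- The number which asks for a bit. -/
def ask (m : ℕ) (t : Fin (m' / 2) × Fin b) : ℤ :=
  16 * ((m + m' : ℕ) : ℤ) ^ 2 + (t.1.val * (4 * (m + m' : ℕ)) + 2 * (t.2.val * 2 ^ b))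

variable (i : Fin m) (t : Fin (m' / 2) × Fin b) (z : Fin (m' / 2) × Fin b → Bool)

/-- the input -/
abbrev inp : ∀ i, Item m m' i := Function.update (enc z) (some i) (ask m t)

/-- The numbers of the input. -/
theorem desc (hb : 2 * (b * 2 ^ b) ≤ m') (p : Fin m ⊕ Fin m') :
    (p = .inl i ∧ nums (inp i t z) p = 16 * ((m + m' : ℕ) : ℤ) ^ 2 +
      (t.1.val * (4 * (m + m' : ℕ)) + 2 * (t.2.val * 2 ^ b))) ∨
    (∃ t' : Fin (m' / 2), (∃ j, p = .inr j ∧ j.val = t'.val) ∧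
      nums (inp i t z) p = 4 * (16 * ((m + m' : ℕ) : ℤ) ^ 2) +
        (t'.val * (4 * (m + m' : ℕ)) + val z t')) ∨
    (∃ s v : ℕ, s < b ∧ v < 2 ^ b ∧ v.testBit s = true ∧
      (∃ j, p = .inr j ∧ j.val = m' / 2 + (s * 2 ^ b + v)) ∧
      nums (inp i t z) p = 3 * (16 * ((m + m' : ℕ) : ℤ) ^ 2) +
        ((v : ℤ) - 2 * (s * 2 ^ b))) ∨
    nums (inp i t z) p = 10 * (16 * ((m + m' : ℕ) : ℤ) ^ 2) +
      ((Sum.elim (fun i => i.val) (fun j => m + j.val) p : ℕ) : ℤ) := by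
  rcases p with i' | j
  · by_cases hi : i' = i
    · left
      subst hi
      refine ⟨rfl, ?_⟩
      simp only [nums, inp, Function.update_self, ask]
    · right; right; right
      simp only [nums, inp]
      rw [Function.update_of_ne (by simpa using hi)]
      simp only [enc, Sum.elim_inl]
  · have e : nums (inp i t z) (.inr j) = (enc z : ∀ i, Item m m' i) none j := by
      simp only [nums, inp]
      rw [Function.update_of_ne (by simp)]
    rw [e]
    by_cases h : j.val < m' / 2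
    · right; left
      refine ⟨⟨j, h⟩, ⟨j, rfl, rfl⟩, ?_⟩
      simp only [enc]
      rw [dif_pos h]
    · by_cases h2 : (j.val - m' / 2) / 2 ^ b < b ∧
          ((j.val - m' / 2) % 2 ^ b).testBit ((j.val - m' / 2) / 2 ^ b) = true
      · right; right; left
        refine ⟨(j.val - m' / 2) / 2 ^ b, (j.val - m' / 2) % 2 ^ b, h2.1,
          Nat.mod_lt _ (by positivity), h2.2, ⟨j, rfl, ?_⟩, ?_⟩
        · have := Nat.div_add_mod (j.val - m' / 2) (2 ^ b)
          rw [mul_comm] at this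
          omega
        · simp only [enc]
          rw [dif_neg h, if_pos h2]
      · right; right; right
        simp only [enc, Sum.elim_inr]
        rw [dif_neg h, if_neg h2]

/-- a small number plus a multiple of a large number -/
theorem split_eq {L g g' l l' : ℤ} (hl : |l| * 2 < L) (hl' : |l'| * 2 < L)
    (h : g * L + l = g' * L + l') : g = g' ∧ l = l' := by
  have h1 := abs_lt.1 (show |l - l'| < L by
    have := abs_sub l l'
    linarith)
  have h2 : (g - g') * L = l' - l := by linarith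
  have h3 : g - g' = 0 := by
    by_contra hne
    rcases lt_or_gt_of_ne hne with h4 | h4
    · have : g - g' ≤ -1 := by omega
      nlinarith
    · have : 1 ≤ g - g' := by omega
      nlinarith
  constructor
  · linarith
  · rw [h3, zero_mul] at h2
    linarith

/-- The tag and the rest of each number. -/
theorem desc2 (hb : 2 * (b * 2 ^ b) ≤ m') (p : Fin m ⊕ Fin m') :
    ∃ g l : ℤ, nums (inp i t z) p = g * (16 * ((m + m' : ℕ) : ℤ) ^ 2) + l ∧
      |l| ≤ 3 * ((m + m' : ℕ) : ℤ) ^ 2 ∧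
      ((g = 1 ∧ p = .inl i ∧ l = t.1.val * (4 * (m + m' : ℕ)) + 2 * (t.2.val * 2 ^ b)) ∨
       (g = 4 ∧ ∃ t' : Fin (m' / 2), (∃ j, p = .inr j ∧ j.val = t'.val) ∧
          l = t'.val * (4 * (m + m' : ℕ)) + val z t') ∨
       (g = 3 ∧ ∃ s v : ℕ, s < b ∧ v < 2 ^ b ∧ v.testBit s = true ∧
          (∃ j, p = .inr j ∧ j.val = m' / 2 + (s * 2 ^ b + v)) ∧
          l = (v : ℤ) - 2 * (s * 2 ^ b)) ∨
       (g = 10 ∧ l = ((Sum.elim (fun i => i.val) (fun j => m + j.val) p : ℕ) : ℤ))) := by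
  obtain ⟨n, hn⟩ : ∃ n, n = m + m' := ⟨_, rfl⟩
  have hm' : m' ≤ n := by omega
  have hn1 : 1 ≤ n := by have := i.2; omega
  have hsq : (n : ℤ) ≤ (n : ℤ) ^ 2 := by exact_mod_cast Nat.le_self_pow (by norm_num) n
  -- bounds
  have b1 : ∀ t' : Fin (m' / 2), (t'.val : ℤ) * (4 * (n : ℤ)) ≤ 2 * (n : ℤ) ^ 2 - 4 * n := by
    intro t'
    have h1 : 2 * (t'.val + 1) ≤ n := by have := t'.2; omega
    have h2 : 2 * ((t'.val : ℤ) + 1) ≤ n := by exact_mod_cast h1
    have h3 : (0 : ℤ) ≤ n := by positivity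
    nlinarith
  have b1' : ∀ t' : Fin (m' / 2), (0 : ℤ) ≤ (t'.val : ℤ) * (4 * (n : ℤ)) := by
    intro t'
    positivity
  have b2 : ∀ s : ℕ, s < b → (2 : ℤ) * (s * 2 ^ b) + 2 * 2 ^ b ≤ n := by
    intro s hs
    have h1 : (s + 1) * 2 ^ b ≤ b * 2 ^ b := Nat.mul_le_mul_right _ hs
    have h2 : 2 * (s * 2 ^ b) + 2 * 2 ^ b ≤ n := by
      rw [add_mul, one_mul] at h1
      omega
    exact_mod_cast h2
  have b2' : ∀ s : ℕ, (0 : ℤ) ≤ 2 * (s * 2 ^ b) := fun s => by positivity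
  have b3 : ∀ v : ℕ, v < 2 ^ b → (v : ℤ) < 2 ^ b := fun v hv => by exact_mod_cast hv
  have b4 : (0 : ℤ) ≤ 2 ^ b := by positivity
  have bb : 0 < b := by have := t.2.2; omega
  have b5 := b2 0 bb
  rw [← hn]
  rcases desc i t z hb p with ⟨h1, h2⟩ | ⟨t', h1, h2⟩ | ⟨s, v, h1, h2, h3, h4, h5⟩ | h2
  · refine ⟨1, _, by rw [h2, ← hn, one_mul], ?_, Or.inl ⟨rfl, h1, rfl⟩⟩
    rw [abs_le]
    have := b1 t.1
    have := b1' t.1
    have := b2 t.2.val t.2.2
    have := b2' t.2.val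
    constructor <;> linarith
  · refine ⟨4, _, by rw [h2, ← hn], ?_, Or.inr (Or.inl ⟨rfl, t', h1, rfl⟩)⟩
    rw [abs_le]
    have := b1 t'
    have := b1' t'
    have := b3 _ (val_lt z t')
    have : (0 : ℤ) ≤ (val z t' : ℤ) := by positivity
    simp only [Nat.cast_zero, zero_mul, mul_zero, zero_add] at b5
    constructor <;> linarith
  · refine ⟨3, _, by rw [h5, ← hn], ?_, Or.inr (Or.inr (Or.inl ⟨rfl, s, v, h1, h2, h3, h4, rfl⟩))⟩
    rw [abs_le]
    have := b2 s h1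
    have := b2' s
    have := b3 v h2
    have : (0 : ℤ) ≤ (v : ℤ) := by positivity
    constructor <;> linarith
  · refine ⟨10, _, by rw [h2, ← hn], ?_, Or.inr (Or.inr (Or.inr ⟨rfl, rfl⟩))⟩
    have h6 : (Sum.elim (fun i => i.val) (fun j => m + j.val) p : ℕ) ≤ n := by
      rcases p with i' | j
      · have := i'.2
        simp only [Sum.elim_inl]
        omega
      · have := j.2
        simp only [Sum.elim_inr]
        omega
    have h7 : ((Sum.elim (fun i => i.val) (fun j => m + j.val) p : ℕ) : ℤ) ≤ n := by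
      exact_mod_cast h6
    rw [abs_of_nonneg (by positivity)]
    nlinarith

/-- three numbers -/
theorem sum_eq {L : ℤ} {g1 g2 g3 l1 l2 l3 : ℤ} (h1 : |l1| * 4 < L) (h2 : |l2| * 4 < L)
    (h3 : |l3| * 4 < L) (h : g1 * L + l1 + (g2 * L + l2) = g3 * L + l3) :
    g1 + g2 = g3 ∧ l1 + l2 = l3 := by
  apply split_eq (L := L)
  · have := abs_add_le l1 l2
    linarith
  · have := abs_nonneg l3
    linarith
  · linarith

/-- the position is determined -/
theorem pos_eq {n K b t t' s s' v w : ℕ} (hK : 0 < K) (hs : s < b) (hs' : s' < b) (hv : v < K)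
    (hw : w < K) (hb : 2 * (b * K) ≤ n)
    (h : (t : ℤ) * (4 * n) + 2 * (s * K) + (v - 2 * (s' * K)) = t' * (4 * n) + w) :
    t = t' ∧ s = s' ∧ v = w := by
  have h1 : (s + 1) * K ≤ b * K := Nat.mul_le_mul_right _ hs
  have h2 : (s' + 1) * K ≤ b * K := Nat.mul_le_mul_right _ hs'
  rw [add_mul, one_mul] at h1 h2
  have e1 : 2 * ((s : ℤ) * K) + 2 * K ≤ n := by
    have : 2 * (s * K) + 2 * K ≤ n := by omega
    exact_mod_cast this
  have e2 : 2 * ((s' : ℤ) * K) + 2 * K ≤ n := by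
    have : 2 * (s' * K) + 2 * K ≤ n := by omega
    exact_mod_cast this
  have e3 : (v : ℤ) < K := by exact_mod_cast hv
  have e4 : (w : ℤ) < K := by exact_mod_cast hw
  have e5 : (0 : ℤ) ≤ (s : ℤ) * K := by positivity
  have e6 : (0 : ℤ) ≤ (s' : ℤ) * K := by positivity
  have e7 : (0 : ℤ) ≤ (v : ℤ) := by positivity
  have e8 : (0 : ℤ) ≤ (w : ℤ) := by positivity
  have e9 : (0 : ℤ) < K := by exact_mod_cast hK
  have f1 := split_eq (L := 4 * (n : ℤ)) (g := t) (g' := t') (l := 2 * ((s : ℤ) * K) +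
    (v - 2 * (s' * K))) (l' := w) (by
      have : |2 * ((s : ℤ) * K) + (v - 2 * (s' * K))| ≤ n := by
        rw [abs_le]
        constructor <;> linarith
      linarith) (by
      rw [abs_of_nonneg e8]
      linarith) (by linarith)
  have f2 := split_eq (L := 2 * (K : ℤ) ) (g := s) (g' := s') (l := (v : ℤ) - w) (l' := 0) (by
      have : |(v : ℤ) - w| < K := by
        rw [abs_lt]
        constructor <;> linarith
      linarith) (by
      rw [abs_zero]
      linarith) (by linarith [f1.2])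
  refine ⟨by exact_mod_cast f1.1, by exact_mod_cast f2.1, ?_⟩
  have := f2.2
  omega

theorem threeSum_inp (hb : 2 * (b * 2 ^ b) ≤ m') :
    threeSum m m' (inp i t z) = z t := by
  unfold threeSum
  rw [Bool.eq_iff_iff, decide_eq_true_iff]
  obtain ⟨n, hn⟩ : ∃ n, n = m + m' := ⟨_, rfl⟩
  have hn1 : 1 ≤ n := by have := i.2; omega
  have hnpos : (0 : ℤ) < (n : ℤ) ^ 2 := by positivity
  constructor
  · rintro ⟨p, q, r, -, -, -, h⟩
    obtain ⟨g1, l1, e1, a1, c1⟩ := desc2 i t z hb p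
    obtain ⟨g2, l2, e2, a2, c2⟩ := desc2 i t z hb q
    obtain ⟨g3, l3, e3, a3, c3⟩ := desc2 i t z hb r
    rw [e1, e2, e3] at h
    rw [← hn] at a1 a2 a3
    obtain ⟨hg, hl⟩ := sum_eq (by rw [← hn]; linarith) (by rw [← hn]; linarith)
      (by rw [← hn]; linarith) h
    -- the main case
    have main : ∀ (l1 l2 l3 : ℤ) (r : Fin m ⊕ Fin m'), l1 + l2 = l3 →
        l1 = t.1.val * (4 * (m + m' : ℕ)) + 2 * (t.2.val * 2 ^ b) →
        (∃ s v : ℕ, s < b ∧ v < 2 ^ b ∧ v.testBit s = true ∧ l2 = (v : ℤ) - 2 * (s * 2 ^ b)) →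
        (∃ t' : Fin (m' / 2), l3 = t'.val * (4 * (m + m' : ℕ)) + val z t') → z t = true := by
      intro l1 l2 l3 r h0 h1 h2 h3
      obtain ⟨s, v, hs, hv, hbit, rfl⟩ := h2
      obtain ⟨t', rfl⟩ := h3
      rw [h1, ← hn] at h0
      obtain ⟨f1, f2, f3⟩ := pos_eq (n := n) (K := 2 ^ b) (b := b) (t := t.1.val) (t' := t'.val)
        (s := t.2.val) (s' := s) (v := v) (w := val z t') (by positivity) t.2.2 hs hv
        (val_lt z t') (by omega) (by push_cast; linarith)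
      have f4 : t.1 = t' := Fin.ext f1
      rw [f3, ← f4, ← f2, val_bit] at hbit
      exact hbit
    rcases c1 with ⟨d1, -, d2⟩ | ⟨d1, -⟩ | ⟨d1, s, v, y1, y2, y3, -, y4⟩ | ⟨d1, -⟩ <;>
    rcases c2 with ⟨d1', -, d2'⟩ | ⟨d1', -⟩ | ⟨d1', s', v', y1', y2', y3', -, y4'⟩ | ⟨d1', -⟩ <;>
    rcases c3 with ⟨d1'', -⟩ | ⟨d1'', t', -, d3''⟩ | ⟨d1'', -⟩ | ⟨d1'', -⟩ <;>
    first
    | (exfalso; omega)
    | exact main l1 l2 l3 r hl d2 ⟨s', v', y1', y2', y3', y4'⟩ ⟨t', d3''⟩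
    | exact main l2 l1 l3 r (by linarith) d2' ⟨s, v, y1, y2, y3, y4⟩ ⟨t', d3''⟩
  · intro h
    have ht2 := t.2.2
    have ht1 := t.1.2
    have hv := val_lt z t.1
    have h1 : (t.2.val + 1) * 2 ^ b ≤ b * 2 ^ b := Nat.mul_le_mul_right _ ht2
    rw [add_mul, one_mul] at h1
    have hj : m' / 2 + (t.2.val * 2 ^ b + val z t.1) < m' := by omega
    have hj2 : t.1.val < m' := by omega
    have ed : (t.2.val * 2 ^ b + val z t.1) / 2 ^ b = t.2.val := by
      rw [mul_comm, Nat.mul_add_div (by positivity), Nat.div_eq_of_lt hv, add_zero]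
    have em : (t.2.val * 2 ^ b + val z t.1) % 2 ^ b = val z t.1 := by
      rw [mul_comm, Nat.mul_add_mod, Nat.mod_eq_of_lt hv]
    refine ⟨.inl i, .inr ⟨_, hj⟩, .inr ⟨t.1.val, hj2⟩, by simp, by simp, ?_, ?_⟩
    · intro h2
      simp only [Sum.inr.injEq, Fin.mk.injEq] at h2
      omega
    · have e1 : nums (inp i t z) (.inl i) = ask m t := by
        simp only [nums, inp, Function.update_self]
      have e2 : ∀ j, nums (inp i t z) (.inr j) = (enc z : ∀ i, Item m m' i) none j := by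
        intro j
        simp only [nums, inp]
        rw [Function.update_of_ne (by simp)]
      rw [e1, e2, e2]
      simp only [enc, ask]
      rw [dif_neg (by omega), dif_pos ht1]
      rw [Nat.add_sub_cancel_left, ed, em, if_pos ⟨ht2, by rw [val_bit]; exact h⟩]
      ring

theorem valid_inp (hb : 2 * (b * 2 ^ b) ≤ m') (hn : 200 ≤ m + m') :
    Valid m m' (inp i t z) := by
  obtain ⟨n, hn'⟩ : ∃ n, n = m + m' := ⟨_, rfl⟩
  have hnpos : (0 : ℤ) < (n : ℤ) ^ 2 := by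
    have : 0 < n := by omega
    positivity
  constructor
  · intro p q h
    obtain ⟨g1, l1, e1, a1, c1⟩ := desc2 i t z hb p
    obtain ⟨g2, l2, e2, a2, c2⟩ := desc2 i t z hb q
    rw [e1, e2] at h
    rw [← hn'] at a1 a2
    obtain ⟨hg, hl⟩ := split_eq (by rw [← hn']; linarith) (by rw [← hn']; linarith) h
    rcases c1 with ⟨d1, d2, -⟩ | ⟨d1, t1, ⟨j1, d2, d3⟩, d4⟩ |
      ⟨d1, s1, v1, y1, y2, -, ⟨j1, d2, d3⟩, y4⟩ | ⟨d1, d2⟩ <;>
    rcases c2 with ⟨d1', d2', -⟩ | ⟨d1', t1', ⟨j1', d2', d3'⟩, d4'⟩ |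
      ⟨d1', s1', v1', y1', y2', -, ⟨j1', d2', d3'⟩, y4'⟩ | ⟨d1', d2'⟩ <;>
    first
    | (exfalso; omega)
    | skip
    · rw [d2, d2']
    · rw [d4, d4', ← hn'] at hl
      have h1 := pos_eq (n := n) (K := 2 ^ b) (b := b) (t := t1.val) (t' := t1'.val)
        (s := 0) (s' := 0) (v := val z t1) (w := val z t1') (by positivity)
        (by have := t.2.2; omega) (by have := t.2.2; omega) (val_lt z t1)
        (val_lt z t1') (by omega) (by push_cast; linarith)
      rw [d2, d2']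
      congr 1
      apply Fin.ext
      omega
    · rw [y4, y4'] at hl
      have h1 := pos_eq (n := n) (K := 2 ^ b) (b := b) (t := 0) (t' := 0)
        (s := s1') (s' := s1) (v := v1) (w := v1') (by positivity)
        y1' y1 y2 y2' (by omega) (by push_cast; linarith)
      rw [d2, d2']
      congr 1
      apply Fin.ext
      rw [d3, d3', h1.2.1, h1.2.2]
    · rw [d2, d2'] at hl
      rcases p with p | p <;> rcases q with q | q <;>
        simp only [Sum.elim_inl, Sum.elim_inr, Nat.cast_inj] at hl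
      · rw [Fin.ext hl]
      · have := p.2; omega
      · have := q.2; omega
      · rw [Fin.ext (by omega : p.val = q.val)]
  · intro p
    obtain ⟨g1, l1, e1, a1, c1⟩ := desc2 i t z hb p
    rw [e1, ← hn']
    rw [← hn'] at a1
    have h1 : (0 : ℤ) ≤ g1 ∧ g1 ≤ 10 := by
      rcases c1 with c | c | c | c <;> omega
    have h2 : (200 : ℤ) ≤ n := by
      rw [hn']
      exact_mod_cast hn
    have h3 := abs_le.1 a1
    rw [abs_le]
    have h4 : (n : ℤ) ^ 3 = n * (n : ℤ) ^ 2 := by ring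
    have h5 : 200 * (n : ℤ) ^ 2 ≤ n * (n : ℤ) ^ 2 := by nlinarith
    have h6 : g1 * (16 * (n : ℤ) ^ 2) ≤ 10 * (16 * (n : ℤ) ^ 2) := by nlinarith
    have h7 : 0 ≤ g1 * (16 * (n : ℤ) ^ 2) := by nlinarith
    rw [h4]
    constructor <;> linarith

end

theorem lower {m m' : ℕ} (hm : 100 ≤ m) (hm' : 100 ≤ m') {Ω : Type} [Fintype Ω] (μ : Ω → ℝ)
    (hμ : IsProb μ) (F : Ω → Fml (Option (Fin m)) (Item m m'))
    (hF : Computes μ F (Valid m m') (threeSum m m')) :
    (m : ℝ) * m' * Nat.log 2 m' ≤ 800 * expSize μ F := by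
  classical
  have hlog : 6 ≤ Nat.log 2 m' := by
    have := Nat.log_mono_right (b := 2) (show 64 ≤ m' by omega)
    rwa [show Nat.log 2 64 = 6 by decide] at this
  obtain ⟨b, hb⟩ : ∃ b, b = Nat.log 2 m' / 2 := ⟨_, rfl⟩
  have hb3 : 3 ≤ b := by omega
  have h2b : 2 * b ≤ 2 ^ b := by
    have : ∀ k : ℕ, 2 * (k + 1) ≤ 2 ^ (k + 1) := by
      intro k
      induction k with
      | zero => norm_num
      | succ k ih => rw [pow_succ]; omega
    obtain ⟨k, rfl⟩ : ∃ k, b = k + 1 := ⟨b - 1, by omega⟩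
    exact this k
  have hbb : 2 * (b * 2 ^ b) ≤ m' := by
    calc 2 * (b * 2 ^ b) = 2 * b * 2 ^ b := by ring
      _ ≤ 2 ^ b * 2 ^ b := Nat.mul_le_mul_right _ h2b
      _ = 2 ^ (2 * b) := by rw [← pow_add]; congr 1; omega
      _ ≤ 2 ^ Nat.log 2 m' := Nat.pow_le_pow_right (by norm_num) (by omega)
      _ ≤ m' := Nat.pow_log_le_self 2 (by omega)
  have h1 : ∀ i : Fin m, (49 / 600 : ℝ) * (((m' / 2 : ℕ) : ℝ) * b) ≤
      4 * (∑ ω, μ ω * ((F ω).reads (some i) : ℝ)) + 1 := by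
    intro i
    have h := reads_lower μ hμ F (Valid m m') (threeSum m m') hF (some i)
      (fun _ => 0) (fun (t : Fin (m' / 2) × Fin b) _ => ask m t)
      (fun _ _ _ _ => rfl)
      enc (fun t z => valid_inp i t z hbb (by omega)) (fun t z => threeSum_inp i t z hbb)
    have e : ((Fintype.card (Fin (m' / 2) × Fin b) : ℕ) : ℝ) = ((m' / 2 : ℕ) : ℝ) * b := by simp
    rw [e] at h
    exact h
  have h2 := size_lower μ hμ F ((univ : Finset (Fin m)).map Function.Embedding.some)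
    ((49 / 600 : ℝ) * (((m' / 2 : ℕ) : ℝ) * b)) (by
      intro i hi
      rw [mem_map] at hi
      obtain ⟨i', -, rfl⟩ := hi
      exact h1 i')
  rw [card_map, card_univ, Fintype.card_fin] at h2
  have h3 : (m' : ℝ) - 1 ≤ 2 * ((m' / 2 : ℕ) : ℝ) := by
    have : m' ≤ 2 * (m' / 2) + 1 := by omega
    have : (m' : ℝ) ≤ 2 * ((m' / 2 : ℕ) : ℝ) + 1 := by exact_mod_cast this
    linarith
  have h4 : (Nat.log 2 m' : ℝ) ≤ 3 * b - 2 := by
    have : Nat.log 2 m' + 2 ≤ 3 * b := by omega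
    have : (Nat.log 2 m' : ℝ) + 2 ≤ 3 * b := by exact_mod_cast this
    linarith
  have h5 : (100 : ℝ) ≤ m' := by exact_mod_cast hm'
  have h6 : (6 : ℝ) ≤ Nat.log 2 m' := by exact_mod_cast hlog
  obtain ⟨L, hL⟩ : ∃ L : ℝ, L = Nat.log 2 m' := ⟨_, rfl⟩
  rw [← hL] at h4 h6 ⊢
  have h7 : (m' : ℝ) * L / 7 ≤ ((m' / 2 : ℕ) : ℝ) * b := by
    have e1 : ((m' : ℝ) - 1) / 2 ≤ ((m' / 2 : ℕ) : ℝ) := by linarith
    have e2 : L / 3 ≤ b := by linarith
    have e3 : ((m' : ℝ) - 1) / 2 * (L / 3) ≤ ((m' / 2 : ℕ) : ℝ) * b :=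
      mul_le_mul e1 e2 (by linarith) (by positivity)
    refine le_trans ?_ e3
    nlinarith
  have h8 : (m' : ℝ) * L / 200 ≤ (49 / 600 : ℝ) * (((m' / 2 : ℕ) : ℝ) * b) - 1 := by
    have e4 : (600 : ℝ) ≤ m' * L := by nlinarith
    linarith
  have h9 := mul_le_mul_of_nonneg_left h8 (by positivity : (0 : ℝ) ≤ m)
  have h10 : (m : ℝ) * ((m' : ℝ) * L / 200) = m * m' * L / 200 := by ring
  linarith

end Pool.Agent.TH697.Form.ThreeSum
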