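import Pool.Agent.TH697.Form.Core

set_option autoImplicit false

/-! # Building formulas -/

namespace Pool.Agent.TH697.Form

open Finset

section

variable {ι : Type} {D : ι → Type} {α : Type}

/-- disjunctions -/
theorem exists_or (s : Finset α) (hs : s.Nonempty) (F : α → Fml ι D) :
    ∃ G : Fml ι D, (∀ x, G.eval x = true ↔ ∃ a ∈ s, (F a).eval x = true) ∧
      G.size = ∑ a ∈ s, (F a).size := by
  classical
  induction hs using Finset.Nonempty.cons_induction with
  | singleton a => exact ⟨F a, fun x => by simp, by simp⟩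
  | cons a s ha hs ih =>
    obtain ⟨G, h1, h2⟩ := ih
    refine ⟨.gate (fun u v => u || v) (F a) G, fun x => ?_, ?_⟩
    · simp only [Fml.eval, Bool.or_eq_true, h1, mem_cons, exists_eq_or_imp]
    · simp only [Fml.size, h2, sum_cons]

/-- conjunctions -/
theorem exists_and (s : Finset α) (hs : s.Nonempty) (F : α → Fml ι D) :
    ∃ G : Fml ι D, (∀ x, G.eval x = true ↔ ∀ a ∈ s, (F a).eval x = true) ∧
      G.size = ∑ a ∈ s, (F a).size := by
  classical
  induction hs using Finset.Nonempty.cons_induction with
  | singleton a => exact ⟨F a, fun x => by simp, by simp⟩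
  | cons a s ha hs ih =>
    obtain ⟨G, h1, h2⟩ := ih
    refine ⟨.gate (fun u v => u && v) (F a) G, fun x => ?_, ?_⟩
    · simp only [Fml.eval, Bool.and_eq_true, h1, mem_cons, forall_eq_or_imp]
    · simp only [Fml.size, h2, sum_cons]

/-- comparison of two numbers with at most `b` bits, which are functions of one item each -/
theorem exists_lt (i j : ι) (b : ℕ) (u : D i → ℕ) (v : D j → ℕ) (hu : ∀ d, u d < 2 ^ b)
    (hv : ∀ d, v d < 2 ^ b) :
    ∃ G : Fml ι D, (∀ x, G.eval x = true ↔ u (x i) < v (x j)) ∧ G.size ≤ 4 * b + 1 := by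
  induction b generalizing u v with
  | zero =>
    refine ⟨.leaf i (fun _ => false), fun x => ?_, by simp [Fml.size]⟩
    have h1 := hu (x i)
    have h2 := hv (x j)
    simp only [pow_zero, Nat.lt_one_iff] at h1 h2
    simp [Fml.eval, h1, h2]
  | succ b ih =>
    obtain ⟨G, h1, h2⟩ := ih (fun d => u d % 2 ^ b) (fun d => v d % 2 ^ b)
      (fun d => Nat.mod_lt _ (by positivity)) (fun d => Nat.mod_lt _ (by positivity))
    refine ⟨.gate (fun p q => p || q)
      (.gate (fun p q => !p && q) (.leaf i (fun d => decide (2 ^ b ≤ u d)))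
        (.leaf j (fun d => decide (2 ^ b ≤ v d))))
      (.gate (fun p q => p && q)
        (.gate (fun p q => p == q) (.leaf i (fun d => decide (2 ^ b ≤ u d)))
          (.leaf j (fun d => decide (2 ^ b ≤ v d)))) G), fun x => ?_, ?_⟩
    · have hu' := hu (x i)
      have hv' := hv (x j)
      rw [pow_succ] at hu' hv'
      have h3 := h1 x
      simp only [Fml.eval, Bool.or_eq_true, Bool.and_eq_true, Bool.not_eq_true',
        decide_eq_false_iff_not, decide_eq_true_eq, beq_iff_eq, decide_eq_decide, h3]
      by_cases c1 : 2 ^ b ≤ u (x i) <;> by_cases c2 : 2 ^ b ≤ v (x j)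
      · have e1 : u (x i) % 2 ^ b = u (x i) - 2 ^ b := by
          rw [Nat.mod_eq_sub_mod c1, Nat.mod_eq_of_lt (by omega)]
        have e2 : v (x j) % 2 ^ b = v (x j) - 2 ^ b := by
          rw [Nat.mod_eq_sub_mod c2, Nat.mod_eq_of_lt (by omega)]
        rw [e1, e2]
        simp only [c1, c2, not_true_eq_false, false_and, true_and, false_or]
        omega
      · have e3 : ¬ u (x i) < v (x j) := by omega
        simp [c1, c2, e3]
      · have e3 : u (x i) < v (x j) := by omega
        simp [c1, c2, e3]
      · rw [Nat.mod_eq_of_lt (not_le.1 c1), Nat.mod_eq_of_lt (not_le.1 c2)]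
        simp only [c1, c2, not_false_eq_true, true_and, false_or]
    · simp only [Fml.size]
      omega

/-- equality of two numbers with at most `b` bits, which are functions of one item each -/
theorem exists_eq' (i j : ι) (b : ℕ) (u : D i → ℕ) (v : D j → ℕ) (hu : ∀ d, u d < 2 ^ b)
    (hv : ∀ d, v d < 2 ^ b) :
    ∃ G : Fml ι D, (∀ x, G.eval x = true ↔ u (x i) = v (x j)) ∧ G.size ≤ 2 * b + 1 := by
  induction b generalizing u v with
  | zero =>
    refine ⟨.leaf i (fun _ => true), fun x => ?_, by simp [Fml.size]⟩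
    have h1 := hu (x i)
    have h2 := hv (x j)
    simp only [pow_zero, Nat.lt_one_iff] at h1 h2
    simp [Fml.eval, h1, h2]
  | succ b ih =>
    obtain ⟨G, h1, h2⟩ := ih (fun d => u d % 2 ^ b) (fun d => v d % 2 ^ b)
      (fun d => Nat.mod_lt _ (by positivity)) (fun d => Nat.mod_lt _ (by positivity))
    refine ⟨.gate (fun p q => p && q)
        (.gate (fun p q => p == q) (.leaf i (fun d => decide (2 ^ b ≤ u d)))
          (.leaf j (fun d => decide (2 ^ b ≤ v d)))) G, fun x => ?_, ?_⟩
    · have hu' := hu (x i)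
      have hv' := hv (x j)
      rw [pow_succ] at hu' hv'
      have h3 := h1 x
      simp only [Fml.eval, Bool.and_eq_true, beq_iff_eq, decide_eq_decide, h3]
      by_cases c1 : 2 ^ b ≤ u (x i) <;> by_cases c2 : 2 ^ b ≤ v (x j)
      · have e1 : u (x i) % 2 ^ b = u (x i) - 2 ^ b := by
          rw [Nat.mod_eq_sub_mod c1, Nat.mod_eq_of_lt (by omega)]
        have e2 : v (x j) % 2 ^ b = v (x j) - 2 ^ b := by
          rw [Nat.mod_eq_sub_mod c2, Nat.mod_eq_of_lt (by omega)]
        rw [e1, e2]
        simp only [c1, c2, true_and]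
        omega
      · have e3 : ¬ u (x i) = v (x j) := by omega
        simp [c1, c2, e3]
      · have e3 : ¬ u (x i) = v (x j) := by omega
        simp [c1, c2, e3]
      · rw [Nat.mod_eq_of_lt (not_le.1 c1), Nat.mod_eq_of_lt (not_le.1 c2)]
        simp only [c1, c2, true_and]
    · simp only [Fml.size]
      omega

end

end Pool.Agent.TH697.Form
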